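import Pool.Agent.X165.CY5

/-!
# `C_4(7)^*` is inscribable with rational coordinates

`CY.E4` is `EuclideanSpace ℝ (Fin 4)`, `CY.mc s = (s, s², s³, s⁴)` is the moment curve and
`CY.Faces P` is the set of exposed faces of `P` ordered by inclusion (for a polytope these are
exactly its faces, including the empty face and `P` itself).
-/

namespace Pool.Agent.Results.MP_6ae079_co.RationalInscribed

open Set CY

/-- There are fourteen points of the unit sphere of `ℝ⁴` with rational coordinates, which are
exactly the vertices of their convex hull, such that the face lattice of this convex hull is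
anti-isomorphic to the face lattice of the cyclic polytope `C_4(7)`, for every choice of seven
parameters `t 0 < ⋯ < t 6` on the moment curve. -/
theorem result : ∃ V : Finset E4, V.card = 14 ∧
    (∀ v ∈ V, ∀ i, ∃ q : ℚ, v i = (q : ℝ)) ∧
    (∀ v ∈ V, ‖v‖ = 1) ∧
    (convexHull ℝ (V : Set E4)).extremePoints ℝ = (V : Set E4) ∧
    ∀ t : Fin 7 → ℝ, StrictMono t →
      Nonempty (Faces (convexHull ℝ (V : Set E4)) ≃o
        (Faces (convexHull ℝ (range fun k => mc (t k))))ᵒᵈ) := by
  classical
  have hV : ((Finset.univ.image W : Finset E4) : Set E4) = range W := by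
    simp
  refine ⟨Finset.univ.image W, ?_, ?_, ?_, ?_, ?_⟩
  · rw [Finset.card_image_of_injective _ W_inj]
    rfl
  · intro v hv i
    obtain ⟨a, _, rfl⟩ := Finset.mem_image.1 hv
    exact ⟨wq a i, W_apply a i⟩
  · intro v hv
    obtain ⟨a, _, rfl⟩ := Finset.mem_image.1 hv
    exact W_norm a
  · rw [hV]
    exact W_ext
  · intro t ht
    rw [hV]
    exact main_iso ht

end Pool.Agent.Results.MP_6ae079_co.RationalInscribed
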